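import Pool.Agent.Lib.MP_d3f2bc_co.Main

/-!
Two graphs on 96 vertices with the same deck of restrained chromatic polynomials and different
chromatic polynomials. Colours are `Fin k`; the colours called 1 and 2 are the values 0 and 1.
-/

namespace Pool.Agent.Results.MP_d3f2bc_co.DeckCounter
open Pool.Agent.Lib.MP_d3f2bc_co

/-- The number of proper colourings of `G` with `k` colours. -/
noncomputable def chromCount {V : Type} (G : SimpleGraph V) (k : ℕ) : ℕ :=
  Nat.card {c : V → Fin k // ∀ u w, G.Adj u w → c u ≠ c w}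

/-- The number of proper colourings of `G - v` with `k` colours in which every neighbour of `v`
avoids the first two colours. -/
noncomputable def rhoCount {V : Type} (G : SimpleGraph V) (v : V) (k : ℕ) : ℕ :=
  Nat.card {c : {u : V // u ≠ v} → Fin k //
    (∀ u w : {u : V // u ≠ v}, G.Adj u.1 w.1 → c u ≠ c w) ∧
      ∀ u : {u : V // u ≠ v}, G.Adj v u.1 → 2 ≤ (c u).val}

theorem result : ∃ (G₁ G₂ : SimpleGraph (Fin 12 × Fin 4 × Bool))
    (r₁ r₂ : Fin 12 × Fin 4 × Bool → Polynomial ℚ) (p₁ p₂ : Polynomial ℚ),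
    (∀ v, ∀ k : ℕ, 2 ≤ k → (r₁ v).eval (k : ℚ) = (rhoCount G₁ v k : ℚ)) ∧
    (∀ v, ∀ k : ℕ, 2 ≤ k → (r₂ v).eval (k : ℚ) = (rhoCount G₂ v k : ℚ)) ∧
    (∀ k : ℕ, p₁.eval (k : ℚ) = (chromCount G₁ k : ℚ)) ∧
    (∀ k : ℕ, p₂.eval (k : ℚ) = (chromCount G₂ k : ℚ)) ∧
    Multiset.map r₁ Finset.univ.val = Multiset.map r₂ Finset.univ.val ∧ p₁ ≠ p₂ := by
  let G : Bool → SimpleGraph Vx := fun s =>
    { Adj := fun u w => u ≠ w ∧ ¬ adj s u w
      symm := ⟨fun u w h => ⟨h.1.symm, fun h' => h.2 ((model s).sym _ _ h')⟩⟩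
      loopless := ⟨fun u h => h.1 rfl⟩ }
  have hc : ∀ s k, (chromCount (G s) k : ℚ) = (model s).Ex k (∏ u, (model s).x u) :=
    fun s k => (model s).chrom k
  have hr : ∀ s v k, (rhoCount (G s) v (k + 2) : ℚ) = (model s).Ex k
      ((opD ((model s).dv v) ^ 2) (∏ u ∈ Finset.univ.erase v, (model s).x u)) :=
    fun s v k => (model s).rho v k
  choose P hP using fun v => (model false).isPoly_op v 2 (Finset.univ.erase v)
  obtain ⟨p₁, hp₁⟩ := (model false).isPoly_prod Finset.univ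
  obtain ⟨p₂, hp₂⟩ := (model true).isPoly_prod Finset.univ
  have key : ∀ v k, ((P v).comp (Polynomial.X - 2)).eval ((k + 2 : ℕ) : ℚ) =
      (P v).eval (k : ℚ) := by
    intro v k; simp [Polynomial.eval_comp]
  refine ⟨G false, G true, fun v => (P v).comp (Polynomial.X - 2),
    fun v => (P v).comp (Polynomial.X - 2), p₁, p₂, ?_, ?_, fun k => ?_, fun k => ?_, rfl, ?_⟩
  · intro v k hk
    obtain ⟨k, rfl⟩ := Nat.exists_eq_add_of_le' hk
    rw [key, hr, hP]
  · intro v k hk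
    obtain ⟨k, rfl⟩ := Nat.exists_eq_add_of_le' hk
    rw [key, hr, ← rho_eq, hP]
  · rw [hc, hp₁]
  · rw [hc, hp₂]
  · intro h
    obtain ⟨k, hk⟩ : ∃ k : ℕ, 48 ≤ k := ⟨_, le_rfl⟩
    exact chrom_ne k hk (by rw [hp₁, hp₂, h])

end Pool.Agent.Results.MP_d3f2bc_co.DeckCounter
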